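import Pool.Agent.Lib.MP_bf69bb_co.XFin

set_option autoImplicit false

namespace Pool.Agent.Results.MP_bf69bb_co.CliqueCoverDraw

open Pool.Agent.Lib.MP_bf69bb_co.Wh

/-- For every `q` there is a finite graph, with every vertex and every edge in a copy of `K_q`,
whose strong Ramsey game on the countably infinite board is a draw. -/
theorem result (q : ℕ) (hq : 2 ≤ q) :
    ∃ (V : Type) (_ : Finite V) (_ : Nonempty V) (G : SimpleGraph V),
      (∀ x, ∃ K : Finset V, G.IsNClique q K ∧ x ∈ K) ∧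
      (∀ x y, G.Adj x y → ∃ K : Finset V, G.IsNClique q K ∧ x ∈ K ∧ y ∈ K) ∧
      ¬ Wins G 0 ∧ ¬ Wins G 1 := by
  obtain ⟨V, h1, h2, G, h3, h4⟩ := Gen.exists_cover q hq
  refine ⟨V, h1, h2, G, fun x => ?_, fun x y h => h3 x y (Or.inr h), h4⟩
  obtain ⟨K, k1, k2, -⟩ := h3 x x (Or.inl rfl)
  exact ⟨K, k1, k2⟩

end Pool.Agent.Results.MP_bf69bb_co.CliqueCoverDraw
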