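import Pool.Agent.Lib.MP_bf69bb_co.Tempo

set_option autoImplicit false

namespace Pool.Agent.Results.MP_bf69bb_co.SmallBias

open Pool.Agent.Lib.MP_bf69bb_co

/-- Strong clique game on the countably infinite board with order of play `s` (`true` is the first
player). If the second player never moves twice in a row and the first player moves for the second
time in a row at least once in every `g` consecutive steps, the first player wins, within
`(q g + 1)^q` steps. -/
theorem result (q g : ℕ) (hq : 3 ≤ q) (s : ℕ → Bool) (h0 : s 0 = true)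
    (h1 : ∀ i, s i = false → s (i + 1) = true)
    (h2 : ∀ i < (q * g + 1) ^ q, ∃ j, i ≤ j + 1 ∧ j + 1 < i + g ∧ s j = true ∧ s (j + 1) = true) :
    Wins q s true (((q * g + 1) ^ q : ℕ) : ℕ∞) := by
  classical
  have hg : 0 < g := by
    obtain ⟨j, -, hj, -⟩ := h2 0 (by positivity)
    omega
  let P : ℕ → Prop := fun i => ∃ j, i = j + 1 ∧ s j = true ∧ s (j + 1) = true
  let c : ℕ → ℕ := fun n => Nat.rec 0 (fun i ci => if P i then ci else ci + 1) n
  have hc : ∀ i, c (i + 1) = if P i then c i else c i + 1 := fun i => rfl
  have hpar : ∀ i, c (i + 1) % 2 = 0 ↔ s i = false := by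
    intro i
    induction i with
    | zero =>
      have : ¬ P 0 := by
        rintro ⟨j, hj, -⟩
        omega
      rw [hc, if_neg this, h0]
      simp [c]
    | succ i ih =>
      rw [hc]
      by_cases hP : P (i + 1)
      · rw [if_pos hP, ih]
        obtain ⟨j, hj, h3, h4⟩ := hP
        obtain rfl : i = j := by omega
        simp [h3, h4]
      · rw [if_neg hP]
        have h3 : ¬ (s i = true ∧ s (i + 1) = true) := fun hh => hP ⟨i, rfl, hh⟩
        have h4 := h1 i
        cases hi : s i <;> cases hi' : s (i + 1) <;> simp_all <;> omega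
  refine W.wins (by omega) (tempo (s' := fun i => decide (i % 2 = 0)) (P := P) (c := c)
    (by omega) hg rfl ?_ ?_ ?_ (steal _ _))
  · intro i hi
    refine ⟨?_, by rw [hc, if_pos hi]⟩
    obtain ⟨j, rfl, -, h⟩ := hi
    exact h
  · intro i hi
    have h3 := hpar i
    rw [hc, if_neg hi] at h3
    refine ⟨?_, by rw [hc, if_neg hi]⟩
    cases hs : s i
    · have := h3.2 hs
      simp only [decide_eq_false_iff_not]
      omega
    · have : ¬ (c i + 1) % 2 = 0 := fun hh => by simp [h3.1 hh] at hs
      simp only [decide_eq_true_eq]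
      omega
  · intro i hi
    obtain ⟨j, h3, h4, h5⟩ := h2 i hi
    exact ⟨j + 1, h3, h4, j, rfl, h5⟩

end Pool.Agent.Results.MP_bf69bb_co.SmallBias
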