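import Pool.Agent.Lib.MP_bf69bb_co.Tempo

set_option autoImplicit false

namespace Pool.Agent.Results.MP_bf69bb_co.TempoCriterion

open Pool.Agent.Lib.MP_bf69bb_co

lemma succ_mod (i m : ℕ) (hm : 1 < m) :
    (i + 1) % m = if i % m + 1 = m then 0 else i % m + 1 := by
  have h1 : i % m < m := Nat.mod_lt _ (by omega)
  rw [Nat.add_mod, Nat.mod_eq_of_lt hm]
  split_ifs with h
  · rw [h, Nat.mod_self]
  · exact Nat.mod_eq_of_lt (by omega)

/-- The first player wins the strong clique game on the countably infinite board if and only if,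
for some `g ≥ 1`, the second player has no winning strategy in the game in which he claims one
additional edge at the end of every `g`-th round. -/
theorem result (q : ℕ) (hq : 3 ≤ q) :
    Wins q (fun i => decide (i % 2 = 0)) true ⊤ ↔
      ∃ g : ℕ, 0 < g ∧
        ¬ Wins q (fun i => decide (i % (2 * g + 1) % 2 = 0 ∧ i % (2 * g + 1) ≠ 2 * g)) false ⊤ := by
  classical
  have hq2 : 2 ≤ q := by omega
  constructor
  · intro h
    obtain ⟨t, ht⟩ := h.bounded hq2
    refine ⟨t + 1, by omega, W.not_wins (p := true) hq2 (ht.shift fun k hk => ?_) ⊤⟩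
    rw [zero_add, Nat.mod_eq_of_lt (show k < 2 * (t + 1) + 1 by omega)]
    simp only [decide_eq_true_eq]
    omega
  · rintro ⟨g, hg, h⟩
    let P : ℕ → Prop := fun i => i % (2 * g + 2) = 2 * g
    let c : ℕ → ℕ := fun n => Nat.rec 0 (fun i ci => if P i then ci else ci + 1) n
    have hc : ∀ i, c (i + 1) = if P i then c i else c i + 1 := fun i => rfl
    have hmod : ∀ i, c i % (2 * g + 1) =
        if i % (2 * g + 2) = 2 * g + 1 then 2 * g else i % (2 * g + 2) := by
      intro i
      induction i with
      | zero => simp [c]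
      | succ i ih =>
        have h1 := succ_mod i (2 * g + 2) (by omega)
        have h2 := succ_mod (c i) (2 * g + 1) (by omega)
        have h3 : i % (2 * g + 2) < 2 * g + 2 := Nat.mod_lt _ (by omega)
        rw [hc]
        by_cases hP : P i
        · rw [if_pos hP, ih, h1]
          simp only [P] at hP
          split_ifs <;> omega
        · rw [if_neg hP, h2, ih, h1]
          simp only [P] at hP
          split_ifs <;> first | omega | contradiction
    have hpar : ∀ i, i % (2 * g + 2) % 2 = i % 2 := fun i => Nat.mod_mod_of_dvd _ ⟨g + 1, by ring⟩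
    have hW := tempo (q := q) (g := 2 * g + 2) (s := fun i => decide (i % 2 = 0))
      (s' := fun i => decide (i % (2 * g + 1) % 2 = 0 ∧ i % (2 * g + 1) ≠ 2 * g)) (P := P) (c := c)
      hq2 (by omega) rfl ?_ ?_ ?_ ?_
    · obtain ⟨σ, hσ⟩ := hW.wins hq2
      refine ⟨σ, fun e h1 h2 => ?_⟩
      obtain ⟨m, -, hm⟩ := hσ e h1 h2
      exact ⟨m, le_top, hm⟩
    · intro i hi
      refine ⟨?_, by rw [hc, if_pos hi]⟩
      have := hpar i
      simp only [P] at hi
      simp only [decide_eq_true_eq]
      omega
    · intro i hi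
      refine ⟨?_, by rw [hc, if_neg hi]⟩
      have h1 := hpar i
      simp only [P] at hi
      simp only [decide_eq_decide, hmod]
      split_ifs <;> omega
    · intro i _
      have h1 := Nat.div_add_mod i (2 * g + 2)
      have h3 : i % (2 * g + 2) < 2 * g + 2 := Nat.mod_lt _ (by omega)
      by_cases hi : i % (2 * g + 2) ≤ 2 * g
      · refine ⟨(2 * g + 2) * (i / (2 * g + 2)) + 2 * g, by omega, by omega, ?_⟩
        simp only [P]
        rw [Nat.mul_add_mod, Nat.mod_eq_of_lt (by omega)]
      · refine ⟨(2 * g + 2) * (i / (2 * g + 2) + 1) + 2 * g, by rw [mul_add]; omega,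
          by rw [mul_add]; omega, ?_⟩
        simp only [P]
        rw [Nat.mul_add_mod, Nat.mod_eq_of_lt (by omega)]
    · intro hw
      obtain ⟨σ, hσ⟩ := hw.wins hq2
      refine h ⟨σ, fun e h1 h2 => ?_⟩
      obtain ⟨m, -, hm⟩ := hσ e h1 h2
      exact ⟨m, le_top, hm⟩

end Pool.Agent.Results.MP_bf69bb_co.TempoCriterion
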