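import Pool.Agent.Lib.MP_bf69bb_co.EGame
import Pool.Agent.Lib.MP_4a944d_co.NLog

set_option autoImplicit false

namespace Pool.Agent.Results.MP_bf69bb_co.TimeSharp

open Pool.Agent.Lib.MP_bf69bb_co Pool.Agent.Lib.MP_4a944d_co.Hc Filter Real

/-- For all large `q`, in the clique game on the countably infinite board (the first player makes
the even steps) the second player has a strategy, with legal moves only, against which the first
player owns no `K_q` after `N` of his moves as long as `N ≤ 2 ^ (2 q / 3) / q ^ 21`. -/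
theorem result : ∃ q₀ : ℕ, ∀ q : ℕ, q₀ ≤ q →
    ∃ σ : List (Sym2 ℕ) → Sym2 ℕ, ∀ e : ℕ → Sym2 ℕ,
      (∀ i, i % 2 = 1 → e i = σ ((List.range i).map e)) → (∀ i, i % 2 = 0 → Legal e i) →
        (∀ i, Legal e i) ∧ ∀ N : ℕ, (N : ℝ) ≤ (2 : ℝ) ^ (2 / 3 * q : ℝ) / q ^ 21 →
          ¬ Owns q (fun i => decide (i % 2 = 0)) true e (2 * N) := by
  refine eventually_atTop.1 ?_
  filter_upwards [ev_pow 345600 3 one_pos, ev_pow 2 6 (show (0 : ℝ) < 1 / 20 by norm_num),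
    eventually_ge_atTop (10 ^ 8)] with q e1 e2 hq
  rw [one_mul] at e1
  have Q : (10 : ℝ) ^ 8 ≤ q := by exact_mod_cast hq
  have q1 : (1 : ℝ) ≤ q := by linarith
  have q6 : 10 ^ 8 ≤ q ^ 6 := hq.trans (Nat.le_self_pow (by norm_num) _)
  have s1 : q ^ 6 ≤ 2 ^ Nat.clog 2 (q ^ 6) := Nat.le_pow_clog one_lt_two _
  have s2 := Nat.pow_pred_clog_lt_self one_lt_two (show 1 < q ^ 6 by omega)
  have s0 := Nat.clog_pos one_lt_two (show 1 < q ^ 6 by omega)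
  generalize Nat.clog 2 (q ^ 6) = s at s0 s1 s2
  have s3 : (2 : ℝ) ^ s ≤ 2 * q ^ 6 := by
    obtain ⟨s, rfl⟩ : ∃ t, s = t + 1 := ⟨s - 1, by omega⟩
    rw [pow_succ']
    exact_mod_cast Nat.mul_le_mul_left 2 s2.le
  have s4 : 10 * s ≤ q := by
    have := s3.trans e2
    rw [two_exp, exp_le_exp] at this
    rw [← Nat.cast_le (α := ℝ)]
    push_cast
    nlinarith [log_two_gt_d9, Nat.cast_nonneg (α := ℝ) s]
  obtain ⟨l, l1, l2⟩ : ∃ l, 3 * l + 10 * s + 16 ≤ 2 * q ∧ 2 * q ≤ 3 * l + 10 * s + 18 :=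
    ⟨(2 * q - 10 * s - 16) / 3, by omega, by omega⟩
  have s1' : (q : ℝ) ^ 6 ≤ 2 ^ s := by exact_mod_cast s1
  have n2 : 14 * ((2 : ℝ) ^ (2 / 3 * q : ℝ) / q ^ 21) ≤ 2 ^ l := by
    refine le_of_pow_le_pow_left₀ three_ne_zero (by positivity) ?_
    rw [mul_pow, div_pow, ← rpow_natCast (_ ^ (_ : ℝ)), ← rpow_mul zero_le_two,
      show (2 / 3 * q * (3 : ℕ) : ℝ) = (2 * q : ℕ) by push_cast; ring, rpow_natCast,
      ← mul_div_assoc, div_le_iff₀ (by positivity)]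
    have q3 : (10 : ℝ) ^ 24 ≤ q ^ 3 := le_trans (by norm_num) (pow_le_pow_left₀ (by norm_num) Q 3)
    calc _ ≤ (14 : ℝ) ^ 3 * 2 ^ (3 * l + 10 * s + 18) := by gcongr; norm_num
      _ = 14 ^ 3 * 2 ^ 18 * (2 ^ l) ^ 3 * (2 ^ s) ^ 10 := by ring
      _ ≤ 14 ^ 3 * 2 ^ 18 * (2 ^ l) ^ 3 * (2 * q ^ 6) ^ 10 := by gcongr
      _ = (2 ^ l) ^ 3 * (14 ^ 3 * 2 ^ 28 * q ^ 60) := by ring
      _ ≤ (2 ^ l) ^ 3 * (q ^ 3 * q ^ 60) := by gcongr; linarith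
      _ = _ := by ring
  have n0 : 0 ≤ (2 : ℝ) ^ (2 / 3 * q : ℝ) / q ^ 21 := by positivity
  have n1 := Nat.floor_le n0
  have t1 : ((2 : ℝ) ^ l)⁻¹ ≤ 1 := inv_le_one_of_one_le₀ (one_le_pow₀ one_le_two)
  obtain ⟨psi, psx, P⟩ := pot_log (V := ℕ) (N := ⌊(2 : ℝ) ^ (2 / 3 * q : ℝ) / q ^ 21⌋₊) (l := l)
    (r := q) one_lt_two le_rfl hq e1 (by omega) (by omega) (by omega) s1' (by omega) l1 le_rfl t1
    (by linarith) (by positivity) le_rfl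
  obtain ⟨σ, hσ⟩ := Ex.strategy P (by positivity) t1 (by
    rw [mul_right_comm, ← div_eq_mul_inv, div_le_one (by positivity)]
    linarith) (le_trans (by
      have : ((10 ^ 8 : ℕ) : ℝ) ≤ 2 ^ s := by exact_mod_cast q6.trans s1
      push_cast at this
      linarith) (le_self_pow₀ (one_le_pow₀ one_le_two) (by omega)))
  refine ⟨σ, fun e h1 h0 => ⟨(hσ e h1 h0).1, fun N hN hO => ?_⟩⟩
  rw [Owns, SimpleGraph.CliqueFree, not_forall] at hO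
  obtain ⟨U, hU⟩ := hO
  rw [not_not] at hU
  have cl : Cl (Ex.ep 0 e (2 * N)) U := fun a ha b hb hab => by
    obtain ⟨⟨i, hi, h3, h4⟩, -⟩ := (SimpleGraph.fromEdgeSet_adj _).1 (hU.1 ha hb hab.ne)
    exact Ex.mem_ep.2 ⟨i, hi, by simpa using h3, by simp [h4, hab.le]⟩
  refine (hσ e h1 h0).2 N (Nat.le_floor hN) (Nat.pos_of_ne_zero ?_) U cl hU.2
  rintro rfl
  obtain ⟨a, ha, b, hb, hab⟩ := Finset.one_lt_card.1 (show 1 < U.card by rw [hU.2]; omega)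
  obtain ⟨⟨i, hi, -⟩, -⟩ := (SimpleGraph.fromEdgeSet_adj _).1 (hU.1 ha hb hab)
  omega

end Pool.Agent.Results.MP_bf69bb_co.TimeSharp
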